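import Mathlib
import Pool.Agent.Helper175.NS.Mask
import Pool.Agent.H933R3.Ball
import Pool.Agent.H933R3.Bits

set_option autoImplicit false

/-!
# A 12-vertex triangulation of the 3-ball with 38 tetrahedra

It is obtained from the 13-vertex ball of the starting files by deleting the facets containing the
vertex `12` and adding the facet `{0, 1, 2, 3}`; the same chain method (stellar exchanges between
complexes with a common stellar subdivision) shows that it is a ball.
-/

namespace Pool.Agent.Helper55K1.NE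

open Finset Pool.Agent.H933R3 Pool.Agent.Helper175.NS

/-- masks of the facets of the ball -/
def Pm : List ℕ := [15, 23, 75, 531, 579, 2061, 329, 2313, 1073, 1553, 1185, 2209, 1345, 1601, 1409,
  2433, 1038, 278, 1286, 2322, 2578, 2242, 2626, 1410, 2434, 1068, 2092, 1316, 2200, 2328, 1192,
  2216, 1136, 2256, 3152, 3600, 1376, 3648]

/-- the lowest vertex of a mask -/
def low (m : ℕ) : ℕ := ((bits m).head?).getD 0

/-- the stellar exchange replacing `ρ * ∂ρ'` by `∂ρ * ρ'` -/
def applyS (l : List ℕ) (ρ ρ' : ℕ) : List ℕ :=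
  l.filter (fun m => !(decide (m &&& ρ = ρ))) ++
    (l.filter (fun m => decide (m &&& ρ = ρ) && !(m.testBit (low ρ')))).flatMap
      (fun m => (bits ρ).map (fun z => (m ||| ρ') ^^^ 2 ^ z))

def okS (l l' : List ℕ) (ρ ρ' : ℕ) : Bool :=
  sameB (starB l ρ 13) (starB l' ρ' 13) && l'.all (fun m => decide (m < 8192)) &&
    decide (ρ < 8192) && decide (ρ' < 8192) && !(bits ρ).isEmpty && !(bits ρ').isEmpty

def chainS : List ℕ → List (ℕ × ℕ) → List ℕ → Bool
  | l, [], t => sameB l t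
  | l, r :: ms, t => okS l (applyS l r.1 r.2) r.1 r.2 && chainS (applyS l r.1 r.2) ms t

theorem chainS_homeo (ms : List (ℕ × ℕ)) :
    ∀ (l t : List ℕ), (∀ m ∈ l, m < 8192) → chainS l ms t = true →
      Nonempty (Sp (decL t) ≃ₜ Sp (decL l)) := by
  induction ms with
  | nil =>
    intro l t _ h
    rw [chainS] at h
    rw [decL_of_sameB h]
    exact ⟨Homeomorph.refl _⟩
  | cons r ms ih =>
    intro l t hl h
    rw [chainS, Bool.and_eq_true] at h
    obtain ⟨h1, h2⟩ := h
    simp only [okS, Bool.and_eq_true, decide_eq_true_eq, List.all_eq_true] at h1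
    obtain ⟨⟨⟨⟨⟨h3, h4⟩, h5⟩, h6⟩, h7⟩, h8⟩ := h1
    obtain ⟨e1⟩ := ih (applyS l r.1 r.2) t h4 h2
    have hne : ∀ ρ : ℕ, (!(bits ρ).isEmpty) = true → (dec ρ).Nonempty := by
      intro ρ hρ
      rw [Bool.not_eq_true', List.isEmpty_eq_false_iff] at hρ
      obtain ⟨z, hz⟩ := List.exists_mem_of_ne_nil _ hρ
      exact ⟨z, mem_bits.1 hz⟩
    have h13 : ∀ l' : List ℕ, (∀ m ∈ l', m < 8192) → ∀ β ∈ decL l', 13 ∉ β := by
      intro l' hl' β hβ hmem
      obtain ⟨m, hm, rfl⟩ := mem_decL.1 hβ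
      have := dec_lt (hl' m hm) 13 hmem
      omega
    have hρ13 : ∀ ρ : ℕ, ρ < 8192 → 13 ∉ dec ρ := by
      intro ρ hρ hmem
      have := dec_lt hρ 13 hmem
      omega
    have heq : star (decL l) (dec r.1) 13 = star (decL (applyS l r.1 r.2)) (dec r.2) 13 := by
      rw [← decL_starB l r.1 h5, ← decL_starB _ r.2 h6]
      exact decL_of_sameB h3
    obtain ⟨e2⟩ := star_homeo (decL l) (dec r.1) 13 (hne _ h7) (h13 l hl) (hρ13 _ h5)
    obtain ⟨e3⟩ := star_homeo (decL (applyS l r.1 r.2)) (dec r.2) 13 (hne _ h8) (h13 _ h4)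
      (hρ13 _ h6)
    rw [heq] at e2
    exact ⟨e1.trans (e3.symm.trans e2)⟩

def movesP : List (ℕ × ℕ) := [(3072, 592), (2560, 82), (40, 3072), (160, 3073), (129, 3328),
  (512, 81), (384, 3074), (3, 68), (2112, 146), (24, 384), (70, 24), (257, 2112), (1040, 97),
  (6, 1040), (68, 25), (2064, 386), (2050, 1408), (1025, 2144), (1, 2064), (1056, 68),
  (1088, 2308), (1040, 6), (12, 1040), (272, 132), (24, 1088), (6, 272), (258, 1168),
  (2176, 1288), (1088, 24), (3072, 12), (272, 1156), (1280, 140), (10, 1088), (18, 1216),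
  (2056, 272), (1028, 152), (12, 400), (8, 1280), (2304, 84), (2048, 52), (192, 18), (2, 192),
  (68, 304), (32, 68), (256, 1028), (16, 196)]

theorem chainP_ok : chainS Pm movesP [1220] = true := by decide +kernel

theorem Pm_small : ∀ m ∈ Pm, m < 4096 := by decide

/-- the set of facets -/
def Ps : Finset (Finset (Fin 12)) := (Pm.map (decF 12)).toFinset

theorem mem_Ps {F : Finset (Fin 12)} : F ∈ Ps ↔ ∃ m ∈ Pm, decF 12 m = F := by
  rw [Ps, List.mem_toFinset, List.mem_map]

theorem image_valP {m : ℕ} (hm : m ∈ Pm) : (decF 12 m).image Fin.val = dec m := by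
  ext k
  rw [mem_image]
  constructor
  · rintro ⟨i, hi, rfl⟩
    rw [mem_decF] at hi
    rw [mem_dec]
    exact ⟨by omega, hi⟩
  · intro hk
    rw [mem_dec] at hk
    have h1 : k < 12 := by
      by_contra hcon
      rw [Nat.testBit_eq_false_of_lt (by
        calc m < 2 ^ 12 := by norm_num; exact Pm_small m hm
          _ ≤ 2 ^ k := Nat.pow_le_pow_right (by norm_num) (by omega))] at hk
      exact absurd hk.2 (by decide)
    refine ⟨⟨k, h1⟩, ?_, rfl⟩
    rw [mem_decF]
    exact hk.2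

theorem Ps_image : Ps.image (fun F => F.image Fin.val) = decL Pm := by
  ext A
  rw [mem_image, mem_decL]
  constructor
  · rintro ⟨F, hF, rfl⟩
    obtain ⟨m, hm, rfl⟩ := mem_Ps.1 hF
    exact ⟨m, hm, (image_valP hm).symm⟩
  · rintro ⟨m, hm, rfl⟩
    exact ⟨decF 12 m, mem_Ps.2 ⟨m, hm, rfl⟩, image_valP hm⟩

theorem Ps_ball : Nonempty (Sp Ps ≃ₜ Metric.closedBall (0 : EuclideanSpace ℝ (Fin 3)) 1) := by
  obtain ⟨e1⟩ := relabel_homeo Ps (Fin.val : Fin 12 → ℕ) univ (fun F _ => subset_univ F)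
    (Fin.val_injective.injOn)
  rw [Ps_image] at e1
  obtain ⟨e2⟩ := chainS_homeo movesP Pm [1220]
    (fun m hm => (Pm_small m hm).trans (by norm_num)) chainP_ok
  have h1 : decL [1220] = {dec 1220} := rfl
  rw [h1] at e2
  obtain ⟨e4⟩ := simplex_ball (dec 1220) 3 (by decide)
  exact ⟨(e1.symm.trans e2.symm).trans e4⟩

theorem realization_eq_P : realization (cx 12 Pm) = Sp Ps := by
  ext x
  constructor
  · rintro ⟨h0, h1, σ, hσ, h2⟩
    obtain ⟨m, hm, h3⟩ := mem_cx.1 hσ
    refine ⟨h0, decF 12 m, mem_Ps.2 ⟨m, hm, rfl⟩, fun i hi => h2 i (fun h => hi (h3 h)), ?_⟩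
    rw [← h1]
    exact sum_subset (subset_univ _) (fun i _ hi => h2 i (fun h => hi (h3 h)))
  · rintro ⟨h0, F, hF, h1, h2⟩
    obtain ⟨m, hm, rfl⟩ := mem_Ps.1 hF
    refine ⟨h0, ?_, decF 12 m, mem_cx.2 ⟨m, hm, Subset.refl _⟩, h1⟩
    rw [← h2]
    exact (sum_subset (subset_univ _) (fun i _ hi => h1 i hi)).symm

/-- the complex is a triangulated 3-ball -/
theorem isBall_P : IsBall 3 (cx 12 Pm) := by
  unfold IsBall
  rw [realization_eq_P]
  exact Ps_ball

end Pool.Agent.Helper55K1.NE
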