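import Mathlib
import Pool.Agent.H933R3.Defs
import Pool.Agent.Y857.LB.Ball

set_option autoImplicit false

/-!
# Cones over simplicial complexes: balls, non-evasiveness
-/

namespace Pool.Agent.Helper55K1.NE

open Finset Pool.Agent.H933R3

variable {n : ℕ}

/-- the trace on the base of a set of vertices of the cone -/
def dn (σ : Finset (Fin (n + 1))) : Finset (Fin n) := univ.filter (fun i => i.succ ∈ σ)

theorem mem_dn {σ : Finset (Fin (n + 1))} {i : Fin n} : i ∈ dn σ ↔ i.succ ∈ σ := by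
  simp [dn]

/-- The cone over the complex `K` on `Fin n`: a complex on `Fin (n + 1)` with apex `0`; the base is
embedded by `Fin.succ`, and a set of vertices is a face exactly if its trace on the base is a face
of `K`. -/
def cone (K : Finset (Finset (Fin n))) : Finset (Finset (Fin (n + 1))) :=
  univ.filter (fun σ => dn σ ∈ K)

theorem mem_cone {K : Finset (Finset (Fin n))} {σ : Finset (Fin (n + 1))} :
    σ ∈ cone K ↔ dn σ ∈ K := by
  simp [cone]

theorem dn_mono {σ τ : Finset (Fin (n + 1))} (h : σ ⊆ τ) : dn σ ⊆ dn τ := by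
  intro i hi
  rw [mem_dn] at hi ⊢
  exact h hi

theorem dn_insert_zero (σ : Finset (Fin (n + 1))) : dn (insert 0 σ) = dn σ := by
  ext i
  rw [mem_dn, mem_dn, mem_insert]
  exact ⟨fun h => h.resolve_left (Fin.succ_ne_zero i), Or.inr⟩

/-- the face of the cone spanned by the apex and a face of the base -/
def upc (σ : Finset (Fin n)) : Finset (Fin (n + 1)) := insert 0 (σ.map (Fin.succEmb n))

theorem zero_mem_upc (σ : Finset (Fin n)) : (0 : Fin (n + 1)) ∈ upc σ := mem_insert_self _ _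

theorem succ_mem_upc {σ : Finset (Fin n)} {i : Fin n} : i.succ ∈ upc σ ↔ i ∈ σ := by
  rw [upc, mem_insert]
  constructor
  · rintro (h | h)
    · exact absurd h (Fin.succ_ne_zero i)
    · exact (mem_map' (Fin.succEmb n)).1 h
  · exact fun h => Or.inr ((mem_map' (Fin.succEmb n)).2 h)

theorem dn_upc (σ : Finset (Fin n)) : dn (upc σ) = σ := by
  ext i
  rw [mem_dn, succ_mem_upc]

theorem upc_dn {σ : Finset (Fin (n + 1))} (h : (0 : Fin (n + 1)) ∈ σ) : upc (dn σ) = σ := by
  ext i
  refine Fin.cases ?_ (fun j => ?_) i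
  · exact ⟨fun _ => h, fun _ => zero_mem_upc _⟩
  · rw [succ_mem_upc, mem_dn]

theorem card_upc (σ : Finset (Fin n)) : (upc σ).card = σ.card + 1 := by
  rw [upc, card_insert_of_notMem, card_map]
  intro h
  obtain ⟨i, _, hi⟩ := mem_map.1 h
  exact Fin.succ_ne_zero i hi

theorem card_dn {σ : Finset (Fin (n + 1))} (h : (0 : Fin (n + 1)) ∈ σ) :
    (dn σ).card + 1 = σ.card := by
  rw [← card_upc, upc_dn h]

theorem isCx_cone {K : Finset (Finset (Fin n))} (hK : IsCx K) : IsCx (cone K) := by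
  constructor
  · rw [mem_cone]
    have : dn (∅ : Finset (Fin (n + 1))) = ∅ := by
      ext i; rw [mem_dn]; simp
    rw [this]
    exact hK.1
  · intro σ hσ τ hτ
    rw [mem_cone] at hσ ⊢
    exact hK.2 _ hσ _ (dn_mono hτ)

/-! ### Cones are non-evasive -/

theorem nonEvasive_of_apex {V : Type} [DecidableEq V] (v : V) (m : ℕ) :
    ∀ K : Finset (Finset V), (K.biUnion id).card ≤ m → IsCx K → {v} ∈ K →
      (∀ σ ∈ K, insert v σ ∈ K) → NonEvasive K := by
  induction m with
  | zero =>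
    intro K hm _ hv _
    have h1 : v ∈ K.biUnion id := mem_biUnion.2 ⟨{v}, hv, mem_singleton_self v⟩
    rw [Nat.le_zero, card_eq_zero] at hm
    rw [hm] at h1
    exact absurd h1 (notMem_empty v)
  | succ m ih =>
    intro K hm hK hv hc
    by_cases h : ∃ w ∈ K.biUnion id, w ≠ v
    · obtain ⟨w, hw, hwv⟩ := h
      obtain ⟨τ, hτ, hwτ⟩ := mem_biUnion.1 hw
      have hwK : {w} ∈ K := hK.2 τ hτ _ (singleton_subset_iff.2 hwτ)
      have hcard : ∀ L : Finset (Finset V), (∀ σ ∈ L, σ ∈ K ∧ w ∉ σ) →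
          (L.biUnion id).card ≤ m := by
        intro L hL
        have hsub : L.biUnion id ⊆ (K.biUnion id).erase w := by
          intro x hx
          obtain ⟨σ, hσ, hxσ⟩ := mem_biUnion.1 hx
          obtain ⟨h1, h2⟩ := hL σ hσ
          refine mem_erase.2 ⟨?_, mem_biUnion.2 ⟨σ, h1, hxσ⟩⟩
          rintro rfl
          exact h2 hxσ
        have h3 := card_le_card hsub
        rw [card_erase_of_mem hw] at h3
        omega
      refine NonEvasive.step K w hwK (ih _ (hcard _ ?_) ?_ ?_ ?_) (ih _ (hcard _ ?_) ?_ ?_ ?_)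
      · intro σ hσ
        exact mem_filter.1 hσ
      · constructor
        · exact mem_filter.2 ⟨hK.1, notMem_empty w⟩
        · intro σ hσ τ hτ
          have h1 := mem_filter.1 hσ
          exact mem_filter.2 ⟨hK.2 σ h1.1 τ hτ, fun h2 => h1.2 (hτ h2)⟩
      · refine mem_filter.2 ⟨hv, ?_⟩
        rw [mem_singleton]
        exact hwv
      · intro σ hσ
        have h1 := mem_filter.1 hσ
        refine mem_filter.2 ⟨hc σ h1.1, ?_⟩
        rw [mem_insert, not_or]
        exact ⟨hwv, h1.2⟩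
      · intro σ hσ
        have h1 := mem_filter.1 hσ
        exact ⟨h1.1, h1.2.1⟩
      · constructor
        · refine mem_filter.2 ⟨hK.1, notMem_empty w, ?_⟩
          simpa using hwK
        · intro σ hσ τ hτ
          have h1 := mem_filter.1 hσ
          exact mem_filter.2 ⟨hK.2 σ h1.1 τ hτ, fun h2 => h1.2.1 (hτ h2),
            hK.2 _ h1.2.2 _ (insert_subset_insert w hτ)⟩
      · refine mem_filter.2 ⟨hv, ?_, ?_⟩
        · rw [mem_singleton]
          exact hwv
        · have h1 := hc _ hwK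
          rwa [pair_comm] at h1
      · intro σ hσ
        have h1 := mem_filter.1 hσ
        refine mem_filter.2 ⟨hc σ h1.1, ?_, ?_⟩
        · rw [mem_insert, not_or]
          exact ⟨hwv, h1.2.1⟩
        · rw [insert_comm]
          exact hc _ h1.2.2
    · push Not at h
      have h1 : K = {∅, {v}} := by
        ext σ
        rw [mem_insert, mem_singleton]
        constructor
        · intro hσ
          have h2 : σ ⊆ {v} := by
            intro x hx
            rw [mem_singleton]
            exact h x (mem_biUnion.2 ⟨σ, hσ, hx⟩)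
          exact subset_singleton_iff.1 h2
        · rintro (rfl | rfl)
          · exact hK.1
          · exact hv
      rw [h1]
      exact NonEvasive.point v

/-- Every cone is non-evasive. -/
theorem nonEvasive_cone {K : Finset (Finset (Fin n))} (hK : IsCx K) : NonEvasive (cone K) := by
  refine nonEvasive_of_apex 0 _ (cone K) le_rfl (isCx_cone hK) ?_ ?_
  · rw [mem_cone]
    have : dn ({0} : Finset (Fin (n + 1))) = ∅ := by
      ext i; rw [mem_dn]; simp [Fin.succ_ne_zero]
    rw [this]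
    exact hK.1
  · intro σ hσ
    rw [mem_cone] at hσ ⊢
    rwa [dn_insert_zero]

/-! ### The cone over a ball is a ball -/

/-- the convex body `{(x, r) | 0 ≤ r, ‖x‖ ≤ 1 - r}` -/
def CB (d : ℕ) : Set (EuclideanSpace ℝ (Fin d) × ℝ) := {p | 0 ≤ p.2 ∧ ‖p.1‖ + p.2 ≤ 1}

theorem CB_convex (d : ℕ) : Convex ℝ (CB d) := by
  intro p hp q hq s t hs ht hst
  obtain ⟨hp1, hp2⟩ := hp
  obtain ⟨hq1, hq2⟩ := hq
  refine ⟨?_, ?_⟩
  · show 0 ≤ s * p.2 + t * q.2
    positivity
  · show ‖s • p.1 + t • q.1‖ + (s * p.2 + t * q.2) ≤ 1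
    have h1 : ‖s • p.1 + t • q.1‖ ≤ s * ‖p.1‖ + t * ‖q.1‖ := by
      refine (norm_add_le _ _).trans ?_
      rw [norm_smul, norm_smul, Real.norm_of_nonneg hs, Real.norm_of_nonneg ht]
    nlinarith

theorem CB_closed (d : ℕ) : IsClosed (CB d) := by
  have h1 : IsClosed {p : EuclideanSpace ℝ (Fin d) × ℝ | 0 ≤ p.2} :=
    isClosed_le continuous_const continuous_snd
  have h2 : IsClosed {p : EuclideanSpace ℝ (Fin d) × ℝ | ‖p.1‖ + p.2 ≤ 1} :=
    isClosed_le (continuous_fst.norm.add continuous_snd) continuous_const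
  exact h1.inter h2

theorem CB_bounded (d : ℕ) : Bornology.IsBounded (CB d) := by
  refine (Metric.isBounded_closedBall (x := (0 : EuclideanSpace ℝ (Fin d) × ℝ)) (r := 1)).subset ?_
  rintro p ⟨h1, h2⟩
  rw [mem_closedBall_zero_iff, Prod.norm_def]
  have := norm_nonneg p.1
  apply max_le
  · linarith
  · rw [Real.norm_eq_abs, abs_of_nonneg h1]
    linarith

theorem CB_int (d : ℕ) : (interior (CB d)).Nonempty := by
  refine ⟨(0, 1 / 2), ?_⟩
  have ho : IsOpen {p : EuclideanSpace ℝ (Fin d) × ℝ | 0 < p.2 ∧ ‖p.1‖ + p.2 < 1} := by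
    apply IsOpen.inter
    · exact isOpen_lt continuous_const continuous_snd
    · exact isOpen_lt (continuous_fst.norm.add continuous_snd) continuous_const
  have hs : {p : EuclideanSpace ℝ (Fin d) × ℝ | 0 < p.2 ∧ ‖p.1‖ + p.2 < 1} ⊆ CB d := by
    intro p hp
    exact ⟨hp.1.le, hp.2.le⟩
  refine interior_maximal hs ho ?_
  constructor
  · norm_num
  · show ‖(0 : EuclideanSpace ℝ (Fin d))‖ + 1 / 2 < 1
    rw [norm_zero]
    norm_num

theorem CB_ball (d : ℕ) :
    Nonempty (CB d ≃ₜ Metric.closedBall (0 : EuclideanSpace ℝ (Fin (d + 1))) 1) := by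
  let e : (EuclideanSpace ℝ (Fin d) × ℝ) ≃L[ℝ] EuclideanSpace ℝ (Fin (d + 1)) :=
    ContinuousLinearEquiv.ofFinrankEq (by simp)
  have hc : Convex ℝ (e.symm ⁻¹' (CB d)) := (CB_convex d).linear_preimage e.symm.toLinearMap
  have hcl : IsClosed (e.symm ⁻¹' (CB d)) := (CB_closed d).preimage e.symm.continuous
  have hint : (interior (e.symm ⁻¹' (CB d))).Nonempty := by
    have : interior (e.symm ⁻¹' (CB d)) = e.symm ⁻¹' interior (CB d) :=
      (e.symm.toHomeomorph.preimage_interior (CB d)).symm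
    rw [this]
    obtain ⟨x, hx⟩ := CB_int d
    refine ⟨e x, ?_⟩
    show e.symm (e x) ∈ interior (CB d)
    rw [ContinuousLinearEquiv.symm_apply_apply]
    exact hx
  have himg : e.symm ⁻¹' (CB d) = e '' (CB d) := by
    ext x
    constructor
    · intro hx
      exact ⟨e.symm x, hx, by simp⟩
    · rintro ⟨y, hy, rfl⟩
      show e.symm (e y) ∈ CB d
      rw [ContinuousLinearEquiv.symm_apply_apply]
      exact hy
  have hb : Bornology.IsBounded (e.symm ⁻¹' (CB d)) := by
    rw [himg]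
    exact e.lipschitz.isBounded_image (CB_bounded d)
  obtain ⟨h, -, h2, -⟩ := exists_homeomorph_image_interior_closure_frontier_eq_unitBall hc hint hb
  rw [hcl.closure_eq, himg] at h2
  exact ⟨((e.toHomeomorph.image (CB d)).trans (h.image (e '' CB d))).trans (Homeomorph.setCongr h2)⟩

section main
variable {d : ℕ} {K : Finset (Finset (Fin n))}

/-- the map onto the realization of the cone -/
noncomputable def q1 (x : Fin n → ℝ) (r : ℝ) : Fin (n + 1) → ℝ :=
  Fin.cons r (fun i => (1 - r) * x i)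

theorem q1_zero (x : Fin n → ℝ) (r : ℝ) : q1 x r 0 = r := rfl

theorem q1_up (x : Fin n → ℝ) (r : ℝ) (i : Fin n) : q1 x r i.succ = (1 - r) * x i := rfl

theorem q1_mem {x : Fin n → ℝ} (hx : x ∈ realization K) {r : ℝ} (hr0 : 0 ≤ r) (hr : r ≤ 1) :
    q1 x r ∈ realization (cone K) := by
  obtain ⟨h0, h1, σ, hσ, h2⟩ := hx
  refine ⟨?_, ?_, upc σ, ?_, ?_⟩
  · intro i
    refine Fin.cases ?_ (fun i => ?_) i
    · rw [q1_zero]; exact hr0
    · rw [q1_up]; exact mul_nonneg (by linarith) (h0 i)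
  · rw [Fin.sum_univ_succ, q1_zero]
    have : ∑ i : Fin n, q1 x r i.succ = (1 - r) * ∑ i, x i := by
      rw [mul_sum]
      exact sum_congr rfl fun i _ => q1_up x r i
    rw [this, h1]
    ring
  · rw [mem_cone, dn_upc]
    exact hσ
  · intro i
    refine Fin.cases ?_ (fun i => ?_) i
    · intro hi
      exact absurd (zero_mem_upc σ) hi
    · intro hi
      rw [succ_mem_upc] at hi
      rw [q1_up, h2 i hi, mul_zero]

/-- every point of the realization is in the image, with its height -/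
theorem q1_surj {y : Fin (n + 1) → ℝ} (hy : y ∈ realization (cone K)) :
    ∃ r : ℝ, 0 ≤ r ∧ r ≤ 1 ∧ (r = 1 → ∀ x, q1 x r = y) ∧
      (r ≠ 1 → ∃ x ∈ realization K, q1 x r = y) := by
  obtain ⟨h0, h1, s, hs, h2⟩ := hy
  rw [Fin.sum_univ_succ] at h1
  rw [mem_cone] at hs
  have hS : 0 ≤ ∑ i : Fin n, y i.succ := sum_nonneg fun i _ => h0 _
  refine ⟨y 0, h0 0, by linarith, ?_, ?_⟩
  · intro hr x
    have hz : ∑ i : Fin n, y i.succ = 0 := by linarith
    have hz' := (sum_eq_zero_iff_of_nonneg fun (i : Fin n) _ => h0 i.succ).1 hz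
    funext i
    refine Fin.cases ?_ (fun i => ?_) i
    · rw [q1_zero]
    · rw [q1_up, hr, hz' i (mem_univ _)]
      ring
  · intro hr
    have hlt : 0 < 1 - y 0 := by
      have h3 : y 0 ≤ 1 := by linarith
      have := lt_of_le_of_ne h3 hr
      linarith
    refine ⟨fun i => y i.succ / (1 - y 0), ⟨?_, ?_, dn s, hs, ?_⟩, ?_⟩
    · intro i
      exact div_nonneg (h0 _) hlt.le
    · rw [← sum_div, div_eq_one_iff_eq hlt.ne']
      linarith
    · intro i hi
      show y i.succ / _ = 0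
      rw [mem_dn] at hi
      rw [h2 _ hi, zero_div]
    · funext i
      refine Fin.cases ?_ (fun i => ?_) i
      · rw [q1_zero]
      · rw [q1_up]
        field_simp

theorem q1_eq_iff {x x' : Fin n → ℝ} {r r' : ℝ} :
    q1 x r = q1 x' r' ↔ r = r' ∧ (r = 1 ∨ x = x') := by
  constructor
  · intro h
    have hr : r = r' := congrFun h 0
    refine ⟨hr, ?_⟩
    subst hr
    by_cases h2 : r = 1
    · exact Or.inl h2
    · right
      have h3 : 1 - r ≠ 0 := fun h4 => h2 (by linarith)
      funext i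
      exact mul_left_cancel₀ h3 (congrFun h i.succ)
  · rintro ⟨rfl, h | rfl⟩
    · funext i
      refine Fin.cases rfl (fun i => ?_) i
      rw [q1_up, q1_up, h]
      ring
    · rfl

/-- The cone over a triangulated `d`-ball is a triangulated `(d+1)`-ball. -/
theorem isBall_cone (hK : IsBall d K) : IsBall (d + 1) (cone K) := by
  obtain ⟨h⟩ := hK
  have : CompactSpace (Metric.closedBall (0 : EuclideanSpace ℝ (Fin d)) 1) :=
    isCompact_iff_compactSpace.1 (isCompact_closedBall 0 1)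
  let P := Metric.closedBall (0 : EuclideanSpace ℝ (Fin d)) 1 × Set.Icc (0 : ℝ) 1
  let Q1 : P → realization (cone K) := fun p =>
    ⟨q1 (h.symm p.1).1 p.2.1, q1_mem (h.symm p.1).2 p.2.2.1 p.2.2.2⟩
  let Q2 : P → CB d := fun p => ⟨((1 - p.2.1) • p.1.1, p.2.1), by
    have h0 : 0 ≤ p.2.1 := p.2.2.1
    have h1 : p.2.1 ≤ 1 := p.2.2.2
    have h2 : ‖(p.1.1 : EuclideanSpace ℝ (Fin d))‖ ≤ 1 := mem_closedBall_zero_iff.1 p.1.2
    refine ⟨h0, ?_⟩
    show ‖(1 - p.2.1) • (p.1.1 : EuclideanSpace ℝ (Fin d))‖ + p.2.1 ≤ 1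
    rw [norm_smul, Real.norm_of_nonneg (by linarith)]
    nlinarith [norm_nonneg (p.1.1 : EuclideanSpace ℝ (Fin d))]⟩
  have c1 : Continuous Q1 := by
    apply Continuous.subtype_mk
    apply continuous_pi
    intro i
    have hr : Continuous fun p : P => (p.2.1 : ℝ) := continuous_subtype_val.comp continuous_snd
    have hx : ∀ j : Fin n, Continuous fun p : P => (h.symm p.1).1 j := fun j =>
      (continuous_apply j).comp (continuous_subtype_val.comp (h.symm.continuous.comp continuous_fst))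
    refine Fin.cases ?_ (fun i => ?_) i
    · exact hr
    · show Continuous fun p : P => (1 - p.2.1) * (h.symm p.1).1 i
      exact (continuous_const.sub hr).mul (hx i)
  have c2 : Continuous Q2 := by
    apply Continuous.subtype_mk
    have hr : Continuous fun p : P => (p.2.1 : ℝ) := continuous_subtype_val.comp continuous_snd
    have hx : Continuous fun p : P => (p.1.1 : EuclideanSpace ℝ (Fin d)) :=
      continuous_subtype_val.comp continuous_fst
    exact ((continuous_const.sub hr).smul hx).prodMk hr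
  have s1 : Function.Surjective Q1 := by
    rintro ⟨y, hy⟩
    obtain ⟨r, hr0, hr, h1, h2⟩ := q1_surj hy
    by_cases hr1 : r = 1
    · refine ⟨(⟨0, by simp⟩, ⟨r, hr0, hr⟩), ?_⟩
      exact Subtype.ext (h1 hr1 _)
    · obtain ⟨x, hx, hxy⟩ := h2 hr1
      refine ⟨(h ⟨x, hx⟩, ⟨r, hr0, hr⟩), ?_⟩
      apply Subtype.ext
      show q1 (h.symm (h ⟨x, hx⟩)).1 r = y
      rw [h.symm_apply_apply]
      exact hxy
  have s2 : Function.Surjective Q2 := by
    rintro ⟨⟨z, r⟩, hz⟩
    obtain ⟨hr0, hz'⟩ := hz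
    change 0 ≤ r at hr0
    change ‖z‖ + r ≤ 1 at hz'
    have hr : r ≤ 1 := by linarith [norm_nonneg z]
    by_cases hr1 : r = 1
    · refine ⟨(⟨0, by simp⟩, ⟨r, hr0, hr⟩), ?_⟩
      apply Subtype.ext
      have hz0 : z = 0 := by
        rw [hr1] at hz'
        exact norm_eq_zero.1 (le_antisymm (by linarith) (norm_nonneg z))
      show ((1 - r) • (0 : EuclideanSpace ℝ (Fin d)), r) = (z, r)
      rw [smul_zero, hz0]
    · have hlt : 0 < 1 - r := by
        have := lt_of_le_of_ne hr hr1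
        linarith
      refine ⟨(⟨(1 - r)⁻¹ • z, ?_⟩, ⟨r, hr0, hr⟩), ?_⟩
      · rw [mem_closedBall_zero_iff, norm_smul, norm_inv, Real.norm_of_nonneg hlt.le,
          inv_mul_le_iff₀ hlt]
        linarith
      · apply Subtype.ext
        show ((1 - r) • ((1 - r)⁻¹ • z), r) = (z, r)
        rw [smul_inv_smul₀ hlt.ne']
  have hk : ∀ p p', Q1 p = Q1 p' ↔ Q2 p = Q2 p' := by
    rintro ⟨z, r⟩ ⟨z', r'⟩
    have e1 : Q1 (z, r) = Q1 (z', r') ↔ r.1 = r'.1 ∧ (r.1 = 1 ∨ z = z') := by
      rw [Subtype.ext_iff]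
      show q1 (h.symm z).1 r.1 = q1 (h.symm z').1 r'.1 ↔ _
      rw [q1_eq_iff]
      have e3 : (h.symm z).1 = (h.symm z').1 ↔ z = z' :=
        Subtype.ext_iff.symm.trans h.symm.injective.eq_iff
      rw [e3]
    have e2 : Q2 (z, r) = Q2 (z', r') ↔ r.1 = r'.1 ∧ (r.1 = 1 ∨ z = z') := by
      rw [Subtype.ext_iff]
      show ((1 - r.1) • z.1, r.1) = ((1 - r'.1) • z'.1, r'.1) ↔ _
      rw [Prod.mk.injEq]
      constructor
      · rintro ⟨h1, h2⟩
        refine ⟨h2, ?_⟩
        rw [← h2] at h1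
        by_cases h3 : r.1 = 1
        · exact Or.inl h3
        · right
          have h4 : 1 - r.1 ≠ 0 := fun h5 => h3 (by linarith)
          exact Subtype.ext (smul_right_injective _ h4 h1)
      · rintro ⟨h1, h2 | h2⟩
        · refine ⟨?_, h1⟩
          rw [← h1, h2, sub_self, zero_smul, zero_smul]
        · rw [h2, h1]
          exact ⟨rfl, rfl⟩
    rw [e1, e2]
  obtain ⟨e⟩ := Pool.Agent.Y857.LB.homeo_of_ker Q1 Q2 c1 c2 s1 s2 hk
  obtain ⟨e'⟩ := CB_ball d
  exact ⟨e.trans e'⟩

end main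

end Pool.Agent.Helper55K1.NE
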