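import Mathlib
import Pool.Agent.Helper55K1.NE.Cone
import Pool.Agent.Y364.E3.Tree

set_option autoImplicit false

/-!
# Local constructions of a cone restrict to local constructions of its base
-/

namespace Pool.Agent.Helper55K1.NE

open Finset Pool.Agent.H933R3 Pool.Agent.Y364.E3

variable {n : ℕ} {K : Finset (Finset (Fin n))}

theorem upc_mono {σ τ : Finset (Fin n)} (h : σ ⊆ τ) : upc σ ⊆ upc τ :=
  insert_subset_insert _ (map_subset_map.2 h)

theorem subset_upc {σ : Finset (Fin (n + 1))} {τ : Finset (Fin n)} (h : dn σ ⊆ τ) :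
    σ ⊆ upc τ := by
  intro i hi
  revert hi
  refine Fin.cases ?_ (fun j => ?_) i
  · exact fun _ => zero_mem_upc τ
  · intro hj
    exact succ_mem_upc.2 (h (mem_dn.2 hj))

theorem zero_mem_facet {F : Finset (Fin (n + 1))} (h : IsFacet (cone K) F) :
    (0 : Fin (n + 1)) ∈ F := by
  have h1 : insert 0 F ∈ cone K := by
    rw [mem_cone, dn_insert_zero]
    exact mem_cone.1 h.1
  have h2 := h.2 _ h1 (subset_insert _ _)
  rw [← h2]
  exact mem_insert_self _ _

theorem facet_dn {F : Finset (Fin (n + 1))} (h : IsFacet (cone K) F) : IsFacet K (dn F) := by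
  refine ⟨mem_cone.1 h.1, fun G hG hFG => ?_⟩
  have h1 : upc G ∈ cone K := by
    rw [mem_cone, dn_upc]
    exact hG
  have h2 := h.2 _ h1 (subset_upc hFG)
  rw [← h2, dn_upc]

theorem facet_upc {F : Finset (Fin n)} (h : IsFacet K F) : IsFacet (cone K) (upc F) := by
  refine ⟨?_, fun G hG hFG => ?_⟩
  · rw [mem_cone, dn_upc]
    exact h.1
  · have h1 : F ⊆ dn G := by
      have := dn_mono hFG
      rwa [dn_upc] at this
    have h2 := h.2 _ (mem_cone.1 hG) h1
    have h3 : (0 : Fin (n + 1)) ∈ G := hFG (zero_mem_upc F)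
    rw [← upc_dn h3, h2]

theorem dn_inj {σ τ : Finset (Fin (n + 1))} (h1 : (0 : Fin (n + 1)) ∈ σ)
    (h2 : (0 : Fin (n + 1)) ∈ τ) (h : dn σ = dn τ) : σ = τ := by
  rw [← upc_dn h1, ← upc_dn h2, h]

/-- a ridge in two distinct facets of the cone contains the apex -/
theorem zero_mem_ridge {d : ℕ} (hc : ∀ F, IsFacet (cone K) F → F.card = d + 1 + 1)
    {F F' R : Finset (Fin (n + 1))} (hF : IsFacet (cone K) F) (hF' : IsFacet (cone K) F')
    (hne : F ≠ F') (hR : R.card = d + 1) (h1 : R ⊆ F) (h2 : R ⊆ F') :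
    (0 : Fin (n + 1)) ∈ R := by
  by_contra h0
  have key : ∀ X, IsFacet (cone K) X → R ⊆ X → insert 0 R = X := by
    intro X hX hRX
    apply eq_of_subset_of_card_le (insert_subset (zero_mem_facet hX) hRX)
    rw [card_insert_of_notMem h0, hR, hc X hX]
  exact hne ((key F hF h1).symm.trans (key F' hF' h2))

theorem stage_inv {d : ℕ} (hc : ∀ F, IsFacet (cone K) F → F.card = d + 1 + 1)
    {𝓕 G : Finset (Finset (Fin (n + 1)))} (h : LCStage (d + 1) (cone K) 𝓕 G) :
    (∀ F ∈ 𝓕, IsFacet (cone K) F) ∧ ∀ R ∈ G, R.card = d + 1 ∧ (0 : Fin (n + 1)) ∈ R := by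
  induction h with
  | start F hF =>
    constructor
    · intro X hX
      rw [mem_singleton] at hX
      exact hX ▸ hF
    · intro R hR
      exact absurd hR (notMem_empty R)
  | attach 𝓕 G F F' R h hF hF' hn hR h1 h2 hG ih =>
    constructor
    · intro X hX
      rcases mem_insert.1 hX with hX | hX
      · exact hX ▸ hF'
      · exact ih.1 X hX
    · intro R' hR'
      rcases mem_insert.1 hR' with rfl | hR'
      · exact ⟨hR, zero_mem_ridge hc (ih.1 F hF) hF' (fun e => hn (e ▸ hF)) hR h1 h2⟩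
      · exact ih.2 R' hR'
  | glue 𝓕 G F F' R A h hF hF' hne hR h1 h2 hG hA hAR hs ih =>
    refine ⟨ih.1, ?_⟩
    intro R' hR'
    rcases mem_insert.1 hR' with rfl | hR'
    · exact ⟨hR, zero_mem_ridge hc (ih.1 F hF) (ih.1 F' hF') hne hR h1 h2⟩
    · exact ih.2 R' hR'

theorem same_dn {𝓕 G : Finset (Finset (Fin (n + 1)))} {A F F' : Finset (Fin (n + 1))}
    (h : SameFace 𝓕 G A F F') : SameFace (𝓕.image dn) (G.image dn) (dn A) (dn F) (dn F') := by
  unfold SameFace at h ⊢
  induction h with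
  | refl => exact Relation.ReflTransGen.refl
  | tail _ h2 ih =>
    obtain ⟨hX, hY, R, hR, h1, h2, h3⟩ := h2
    exact ih.tail ⟨mem_image_of_mem _ hX, mem_image_of_mem _ hY, dn R, mem_image_of_mem _ hR,
      dn_mono h1, dn_mono h2, dn_mono h3⟩

theorem stage_dn {d : ℕ} (hc : ∀ F, IsFacet (cone K) F → F.card = d + 1 + 1)
    {𝓕 G : Finset (Finset (Fin (n + 1)))} (h : LCStage (d + 1) (cone K) 𝓕 G) :
    LCStage d K (𝓕.image dn) (G.image dn) := by
  induction h with
  | start F hF =>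
    rw [image_singleton, image_empty]
    exact LCStage.start _ (facet_dn hF)
  | attach 𝓕 G F F' R h hF hF' hn hR h1 h2 hG ih =>
    obtain ⟨i1, i2⟩ := stage_inv hc h
    have h0 := zero_mem_ridge hc (i1 F hF) hF' (fun e => hn (e ▸ hF)) hR h1 h2
    rw [image_insert, image_insert]
    refine LCStage.attach _ _ (dn F) (dn F') (dn R) ih (mem_image_of_mem _ hF) (facet_dn hF') ?_ ?_
      (dn_mono h1) (dn_mono h2) ?_
    · intro h3
      obtain ⟨X, hX, h4⟩ := mem_image.1 h3
      exact hn (dn_inj (zero_mem_facet (i1 X hX)) (zero_mem_facet hF') h4 ▸ hX)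
    · have := card_dn h0
      omega
    · intro h3
      obtain ⟨X, hX, h4⟩ := mem_image.1 h3
      exact hG (dn_inj (i2 X hX).2 h0 h4 ▸ hX)
  | glue 𝓕 G F F' R A h hF hF' hne hR h1 h2 hG hA hAR hs ih =>
    obtain ⟨i1, i2⟩ := stage_inv hc h
    have h0 := zero_mem_ridge hc (i1 F hF) (i1 F' hF') hne hR h1 h2
    -- the face `A` contains the apex
    have hA0 : (0 : Fin (n + 1)) ∈ A := by
      by_contra hA0
      have hAc : insert 0 A = R := by
        apply eq_of_subset_of_card_le (insert_subset h0 hAR)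
        rw [card_insert_of_notMem hA0, hA, hR]
      rcases Relation.ReflTransGen.cases_head hs with h3 | ⟨Y, ⟨_, _, R', hR', h4, _, _⟩, _⟩
      · exact hne h3
      · have h5 : R = R' := by
          rw [← hAc]
          apply eq_of_subset_of_card_le (insert_subset (i2 R' hR').2 h4)
          rw [card_insert_of_notMem hA0, hA, (i2 R' hR').1]
        exact hG (h5 ▸ hR')
    rw [image_insert]
    refine LCStage.glue _ _ (dn F) (dn F') (dn R) (dn A) ih (mem_image_of_mem _ hF)
      (mem_image_of_mem _ hF') ?_ ?_ (dn_mono h1) (dn_mono h2) ?_ ?_ (dn_mono hAR) (same_dn hs)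
    · intro h3
      exact hne (dn_inj (zero_mem_facet (i1 F hF)) (zero_mem_facet (i1 F' hF')) h3)
    · have := card_dn h0
      omega
    · intro h3
      obtain ⟨X, hX, h4⟩ := mem_image.1 h3
      exact hG (dn_inj (i2 X hX).2 h0 h4 ▸ hX)
    · have := card_dn hA0
      omega

/-- If the cone over `K` is locally constructible, then so is `K`. -/
theorem isLC_of_cone {d : ℕ} (h : IsLC (d + 1) (cone K)) : IsLC d K := by
  obtain ⟨h1, h2, 𝓕, G, h3, h4, h5⟩ := h
  obtain ⟨i1, i2⟩ := stage_inv h1 h3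
  refine ⟨?_, ?_, 𝓕.image dn, G.image dn, stage_dn h1 h3, ?_, ?_⟩
  · intro F hF
    have := h1 _ (facet_upc hF)
    rw [card_upc] at this
    omega
  · intro R hR X Y Z hX hY hZ hRX hRY hRZ
    have key := h2 (upc R) (by rw [card_upc, hR]) (upc X) (upc Y) (upc Z) (facet_upc hX)
      (facet_upc hY) (facet_upc hZ) (upc_mono hRX) (upc_mono hRY) (upc_mono hRZ)
    have hinj : ∀ P Q : Finset (Fin n), upc P = upc Q → P = Q := by
      intro P Q h
      rw [← dn_upc P, h, dn_upc]
    rcases key with key | key | key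
    · exact Or.inl (hinj _ _ key)
    · exact Or.inr (Or.inl (hinj _ _ key))
    · exact Or.inr (Or.inr (hinj _ _ key))
  · intro F hF
    exact mem_image.2 ⟨upc F, h4 _ (facet_upc hF), dn_upc F⟩
  · intro A hA F hF F' hF' hAF hAF'
    obtain ⟨X, hX, rfl⟩ := mem_image.1 hF
    obtain ⟨Y, hY, rfl⟩ := mem_image.1 hF'
    have h6 : ∀ Z ∈ 𝓕, A ⊆ dn Z → upc A ⊆ Z := by
      intro Z hZ h
      have := upc_mono h
      rwa [upc_dn (zero_mem_facet (i1 Z hZ))] at this
    have h7 := same_dn (h5 (upc A) (by rw [mem_cone, dn_upc]; exact hA) X hX Y hY (h6 X hX hAF)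
      (h6 Y hY hAF'))
    rwa [dn_upc] at h7

/-! ### The two forms of local constructibility agree -/

theorem lcStage_of_tree {V : Type} [DecidableEq V] {d : ℕ} {K 𝓕 T : Finset (Finset V)}
    (h : TreeStage d K 𝓕 T) : LCStage d K 𝓕 T := by
  induction h with
  | start F hF => exact LCStage.start F hF
  | attach 𝓕 T F F' R h hF hF' hn hR h1 h2 hT ih =>
    exact LCStage.attach 𝓕 T F F' R ih hF hF' hn hR h1 h2 hT

theorem lcStage_of_glue {V : Type} [DecidableEq V] {d : ℕ} {K 𝓕 T G : Finset (Finset V)}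
    (h : TreeStage d K 𝓕 T) (hg : GlueStage d 𝓕 T G) : LCStage d K 𝓕 G := by
  induction hg with
  | start => exact lcStage_of_tree h
  | glue G F F' R A h hF hF' hne hR h1 h2 hG hA hAR hs ih =>
    exact LCStage.glue 𝓕 G F F' R A ih hF hF' hne hR h1 h2 hG hA hAR hs

theorem isLC_of_isTreeLC {V : Type} [DecidableEq V] {d : ℕ} {K : Finset (Finset V)}
    (h : IsTreeLC d K) : IsLC d K := by
  obtain ⟨h1, h2, 𝓕, T, G, h3, h4, h5, h6⟩ := h
  exact ⟨h1, h2, 𝓕, G, lcStage_of_glue h3 h4, h5, h6⟩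

end Pool.Agent.Helper55K1.NE
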