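import Mathlib
import Pool.Agent.H933R3.Defs

set_option autoImplicit false
set_option linter.unusedSectionVars false

/-!
# Flat sections over the stages of a local construction

Let `K` be a 3-dimensional complex, let `N` single out the vertices away from an edge `e` of `K`,
and let `φ u v` be transition functions on the set `Fin 3` along the edges avoiding `e`.  If the
edge `e` lies in at most three ridges, then every stage of a local construction of `K` carries a
flat section; hence a locally constructible complex carries a global one.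
-/

namespace Pool.Agent.Helper55K1.NE

open Finset Pool.Agent.H933R3

variable {V : Type} [DecidableEq V]

/-- a section over the complex obtained by gluing the simplices in `𝓕` along the faces in `G` -/
def Sec (N : V → Prop) (φ : V → V → Fin 3 → Fin 3) (𝓕 G : Finset (Finset V))
    (s : Finset V → V → Fin 3) : Prop :=
  (∀ F ∈ 𝓕, ∀ u ∈ F, ∀ v ∈ F, N u → N v → s F v = φ u v (s F u)) ∧
  (∀ R ∈ G, ∀ X ∈ 𝓕, ∀ Y ∈ 𝓕, R ⊆ X → R ⊆ Y → ∀ u ∈ R, N u → s X u = s Y u)

/-- the local data -/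
structure Data (K : Finset (Finset V)) (N : V → Prop) (φ : V → V → Fin 3 → Fin 3)
    (e : Finset V) (c₀ : Fin 3) (a b c : Finset V) : Prop where
  two : AtMostTwo 3 K
  refl : ∀ F, IsFacet K F → ∀ u ∈ F, N u → ∀ x, φ u u x = x
  coc : ∀ F, IsFacet K F → ∀ u ∈ F, ∀ v ∈ F, ∀ w ∈ F, N u → N v → N w →
    ∀ x, φ v w (φ u v x) = φ u w x
  ridge : ∀ F, IsFacet K F → ∀ R ⊆ F, R.card = 3 → ∃ w ∈ R, N w
  edge : ∀ F, IsFacet K F → ∀ A ⊆ F, A.card + 1 = 3 → A ≠ e → ∃ w ∈ A, N w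
  fix : ∀ F, IsFacet K F → e ⊆ F → ∀ u ∈ F, ∀ v ∈ F, N u → N v → φ u v c₀ = c₀
  three : ∀ F, IsFacet K F → ∀ R ⊆ F, R.card = 3 → e ⊆ R → R = a ∨ R = b ∨ R = c
  card4 : ∀ F, IsFacet K F → F.card = 4

section
variable {K : Finset (Finset V)} {N : V → Prop} {φ : V → V → Fin 3 → Fin 3}
  {e : Finset V} {c₀ : Fin 3} {a b c : Finset V}

theorem stage_facet {𝓕 G : Finset (Finset V)} (h : LCStage 3 K 𝓕 G) :
    ∀ F ∈ 𝓕, IsFacet K F := by
  induction h with
  | start F hF =>
    intro X hX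
    rw [mem_singleton] at hX
    exact hX ▸ hF
  | attach 𝓕 G F F' R h hF hF' hn hR h1 h2 hG ih =>
    intro X hX
    rcases mem_insert.1 hX with hX | hX
    · exact hX ▸ hF'
    · exact ih X hX
  | glue 𝓕 G F F' R A h hF hF' hne hR h1 h2 hG hA hAR hs ih => exact ih

theorem stage_ridge {𝓕 G : Finset (Finset V)} (h : LCStage 3 K 𝓕 G) :
    ∀ R ∈ G, R.card = 3 ∧ ∃ X ∈ 𝓕, ∃ Y ∈ 𝓕, X ≠ Y ∧ R ⊆ X ∧ R ⊆ Y := by
  induction h with
  | start F hF =>
    intro R hR
    exact absurd hR (notMem_empty R)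
  | attach 𝓕 G F F' R h hF hF' hn hR h1 h2 hG ih =>
    intro R' hR'
    rcases mem_insert.1 hR' with rfl | hR'
    · refine ⟨hR, F, mem_insert_of_mem hF, F', mem_insert_self _ _, ?_, h1, h2⟩
      rintro rfl
      exact hn hF
    · obtain ⟨h3, X, hX, Y, hY, h4⟩ := ih R' hR'
      exact ⟨h3, X, mem_insert_of_mem hX, Y, mem_insert_of_mem hY, h4⟩
  | glue 𝓕 G F F' R A h hF hF' hne hR h1 h2 hG hA hAR hs ih =>
    intro R' hR'
    rcases mem_insert.1 hR' with rfl | hR'
    · exact ⟨hR, F, hF, F', hF', hne, h1, h2⟩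
    · exact ih R' hR'

/-- agreement along a chain of glued faces -/
theorem same_eq {𝓕 G : Finset (Finset V)} {s : Finset V → V → Fin 3} (hs : Sec N φ 𝓕 G s)
    {A F F' : Finset V} (h : SameFace 𝓕 G A F F') {w : V} (hw : w ∈ A) (hN : N w) :
    s F w = s F' w := by
  unfold SameFace at h
  induction h with
  | refl => rfl
  | tail _ h2 ih =>
    obtain ⟨hX, hY, R, hR, hAR, h3, h4⟩ := h2
    exact ih.trans (hs.2 R hR _ hX _ hY h3 h4 w (hAR hw) hN)

/-- extension of a section over a new simplex -/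
theorem sec_attach (D : Data K N φ e c₀ a b c) {𝓕 G : Finset (Finset V)}
    (h : LCStage 3 K 𝓕 G) {F F' R : Finset V} (hF : F ∈ 𝓕) (hF' : IsFacet K F') (hn : F' ∉ 𝓕)
    (hR : R.card = 3) (h1 : R ⊆ F) (h2 : R ⊆ F') {w : V} (hw : w ∈ R)
    (hNw : N w) {s : Finset V → V → Fin 3} (hs : Sec N φ 𝓕 G s) :
    Sec N φ (insert F' 𝓕) (insert R G) (Function.update s F' (fun v => φ w v (s F w))) := by
  have hfac := stage_facet h
  have hrid := stage_ridge h
  have hne : F ≠ F' := fun h => hn (h ▸ hF)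
  have e1 : ∀ X ∈ 𝓕, (Function.update s F' (fun v => φ w v (s F w))) X = s X := by
    intro X hX
    exact Function.update_of_ne (fun h : X = F' => hn (h ▸ hX)) _ _
  have e2 : (Function.update s F' (fun v => φ w v (s F w))) F' = fun v => φ w v (s F w) :=
    Function.update_self _ _ _
  constructor
  · intro X hX u hu v hv hNu hNv
    rcases mem_insert.1 hX with rfl | hX
    · rw [e2]
      exact (D.coc X hF' w (h2 hw) u hu v hv hNw hNu hNv _).symm
    · rw [e1 X hX]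
      exact hs.1 X hX u hu v hv hNu hNv
  · have key : ∀ X ∈ insert F' 𝓕, R ⊆ X → ∀ u ∈ R, N u →
        (Function.update s F' (fun v => φ w v (s F w))) X u = s F u := by
      intro X hX hRX u hu hNu
      have hXf : IsFacet K X := by
        rcases mem_insert.1 hX with rfl | hX
        · exact hF'
        · exact hfac X hX
      rcases D.two R hR F F' X (hfac F hF) hF' hXf h1 h2 hRX with h3 | h3 | h3
      · exact absurd h3 hne
      · rw [← h3, e1 F hF]
      · rw [← h3, e2]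
        exact (hs.1 F hF w (h1 hw) u (h1 hu) hNw hNu).symm
    intro R' hR' X hX Y hY hX' hY' u hu hNu
    rcases mem_insert.1 hR' with rfl | hR'
    · rw [key X hX hX' u hu hNu, key Y hY hY' u hu hNu]
    · obtain ⟨hc, P, hP, Q, hQ, hPQ, hRP, hRQ⟩ := hrid R' hR'
      have hmem : ∀ Z ∈ insert F' 𝓕, R' ⊆ Z → Z ∈ 𝓕 := by
        intro Z hZ hZ'
        rcases mem_insert.1 hZ with rfl | hZ
        · rcases D.two R' hc P Q Z (hfac P hP) (hfac Q hQ) hF' hRP hRQ hZ' with h3 | h3 | h3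
          · exact absurd h3 hPQ
          · exact absurd (h3 ▸ hP) hn
          · exact absurd (h3 ▸ hQ) hn
        · exact hZ
      have hX2 := hmem X hX hX'
      have hY2 := hmem Y hY hY'
      rw [e1 X hX2, e1 Y hY2]
      exact hs.2 R' hR' X hX2 Y hY2 hX' hY' u hu hNu

/-- a gluing preserves a section that agrees on the two copies of the glued face -/
theorem sec_glue (D : Data K N φ e c₀ a b c) {𝓕 G : Finset (Finset V)}
    (h : LCStage 3 K 𝓕 G) {F F' R : Finset V} (hF : F ∈ 𝓕) (hF' : F' ∈ 𝓕) (hne : F ≠ F')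
    (hR : R.card = 3) (h1 : R ⊆ F) (h2 : R ⊆ F') {w : V} (hw : w ∈ R) (hNw : N w)
    {s : Finset V → V → Fin 3} (hs : Sec N φ 𝓕 G s) (heq : s F w = s F' w) :
    Sec N φ 𝓕 (insert R G) s := by
  have hfac := stage_facet h
  refine ⟨hs.1, ?_⟩
  intro R' hR' X hX Y hY hX' hY' u hu hNu
  rcases mem_insert.1 hR' with rfl | hR'
  · have key : ∀ X ∈ 𝓕, R' ⊆ X → s X u = s F u := by
      intro X hX hRX
      rcases D.two R' hR F F' X (hfac F hF) (hfac F' hF') (hfac X hX) h1 h2 hRX with h3 | h3 | h3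
      · exact absurd h3 hne
      · rw [h3]
      · rw [← h3, hs.1 F hF w (h1 hw) u (h1 hu) hNw hNu,
          hs.1 F' hF' w (h2 hw) u (h2 hu) hNw hNu, heq]
    rw [key X hX hX', key Y hY hY']
  · exact hs.2 R' hR' X hX Y hY hX' hY' u hu hNu

/-- if one of the ridges at the edge `e` has not been glued, then the initial value of a section
is free -/
theorem sec_free (D : Data K N φ e c₀ a b c) {𝓕 G : Finset (Finset V)} (h : LCStage 3 K 𝓕 G)
    {R₀ F₁ : Finset V} (hF₁ : IsFacet K F₁) (hR₀F : R₀ ⊆ F₁) (hR₀c : R₀.card = 3)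
    (heR₀ : e ⊆ R₀) (hR₀ : R₀ ∉ G) {F₀ : Finset V} (hF₀ : F₀ ∈ 𝓕) {u₀ : V} (hu₀ : u₀ ∈ F₀)
    (hN₀ : N u₀) (x : Fin 3) : ∃ s, Sec N φ 𝓕 G s ∧ s F₀ u₀ = x := by
  induction h generalizing F₀ u₀ x with
  | start F hF =>
    rw [mem_singleton] at hF₀
    subst hF₀
    refine ⟨fun _ v => φ u₀ v x, ⟨?_, ?_⟩, D.refl _ hF u₀ hu₀ hN₀ x⟩
    · intro X hX u hu v hv hNu hNv
      rw [mem_singleton] at hX
      subst hX
      exact (D.coc _ hF u₀ hu₀ u hu v hv hN₀ hNu hNv x).symm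
    · intro R hR
      exact absurd hR (notMem_empty R)
  | attach 𝓕 G F F' R h hF hF' hn hR h1 h2 hG ih =>
    rw [mem_insert, not_or] at hR₀
    obtain ⟨w, hw, hNw⟩ := D.ridge F' hF' R h2 hR
    rcases mem_insert.1 hF₀ with rfl | hF₀'
    · obtain ⟨s, hs, hsw⟩ := ih hR₀.2 hF (h1 hw) hNw (φ u₀ w x)
      refine ⟨_, sec_attach D h hF hF' hn hR h1 h2 hw hNw hs, ?_⟩
      rw [Function.update_self, hsw, D.coc _ hF' u₀ hu₀ w (h2 hw) u₀ hu₀ hN₀ hNw hN₀,
        D.refl _ hF' u₀ hu₀ hN₀]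
    · obtain ⟨s, hs, hsw⟩ := ih hR₀.2 hF₀' hu₀ hN₀ x
      refine ⟨_, sec_attach D h hF hF' hn hR h1 h2 hw hNw hs, ?_⟩
      rw [Function.update_of_ne (fun h : F₀ = F' => hn (h ▸ hF₀'))]
      exact hsw
  | glue 𝓕 G F F' R A h hF hF' hne hR h1 h2 hG hA hAR hs ih =>
    rw [mem_insert, not_or] at hR₀
    have hfac := stage_facet h
    have hrid := stage_ridge h
    obtain ⟨s, hsec, hsx⟩ := ih hR₀.2 hF₀ hu₀ hN₀ x
    refine ⟨s, ?_, hsx⟩
    by_cases hAe : A = e
    · exfalso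
      subst hAe
      -- the ridges at the edge in `G` differ from `R₀` and `R`
      have hR3 := D.three F (hfac F hF) R h1 hR hAR
      have hR₀3 := D.three F₁ hF₁ R₀ hR₀F hR₀c heR₀
      have hstep : ∀ X Y : Finset V, (X ∈ 𝓕 ∧ Y ∈ 𝓕 ∧ ∃ R ∈ G, A ⊆ R ∧ R ⊆ X ∧ R ⊆ Y) →
          ∃ R' ∈ G, R' ⊆ X ∧ R' ⊆ Y ∧ R'.card = 3 ∧ (R' = a ∨ R' = b ∨ R' = c) := by
        rintro X Y ⟨hX, _, R', hR', h3, h4, h5⟩
        exact ⟨R', hR', h4, h5, (hrid R' hR').1,
          D.three X (hfac X hX) R' h4 (hrid R' hR').1 h3⟩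
      have hfirst : ∃ R' ∈ G, R' ⊆ F ∧ R'.card = 3 ∧ (R' = a ∨ R' = b ∨ R' = c) := by
        rcases Relation.ReflTransGen.cases_head hs with h3 | ⟨Y, h3, _⟩
        · exact absurd h3 hne
        · obtain ⟨R', h4, h5, h6, h7, h8⟩ := hstep _ _ h3
          exact ⟨R', h4, h5, h7, h8⟩
      have hlast : ∃ R' ∈ G, R' ⊆ F' ∧ R'.card = 3 ∧ (R' = a ∨ R' = b ∨ R' = c) := by
        rcases Relation.ReflTransGen.cases_tail hs with h3 | ⟨Y, _, h3⟩
        · exact absurd h3.symm hne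
        · obtain ⟨R', h4, h5, h6, h7, h8⟩ := hstep _ _ h3
          exact ⟨R', h4, h6, h7, h8⟩
      obtain ⟨P, hP, hPF, hPc, hP3⟩ := hfirst
      obtain ⟨Q, hQ, hQF, hQc, hQ3⟩ := hlast
      have n1 : P ≠ R := fun h => hG (h ▸ hP)
      have n2 : P ≠ R₀ := fun h => hR₀.2 (h ▸ hP)
      have n3 : Q ≠ R := fun h => hG (h ▸ hQ)
      have n4 : Q ≠ R₀ := fun h => hR₀.2 (h ▸ hQ)
      have n5 : R₀ ≠ R := hR₀.1
      have hPQ : P = Q := by
        rcases hP3 with rfl | rfl | rfl <;> rcases hQ3 with rfl | rfl | rfl <;> try rfl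
        all_goals
          rcases hR3 with rfl | rfl | rfl <;> first
            | exact absurd rfl n1
            | exact absurd rfl n3
            | skip
        all_goals
          rcases hR₀3 with rfl | rfl | rfl <;> first
            | exact absurd rfl n2
            | exact absurd rfl n4
            | exact absurd rfl n5
      subst hPQ
      -- `F` and `F'` both contain the two distinct ridges `R` and `P`
      have hun : ∀ X : Finset V, X.card = 4 → R ⊆ X → P ⊆ X → R ∪ P = X := by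
        intro X hX h3 h4
        apply eq_of_subset_of_card_le (union_subset h3 h4)
        have h5 : R ⊂ R ∪ P := by
          refine ⟨subset_union_left, fun h6 => ?_⟩
          have h7 : P ⊆ R := subset_union_right.trans h6
          exact n1 (eq_of_subset_of_card_le h7 (by rw [hR, hPc]))
        have := card_lt_card h5
        omega
      exact hne ((hun F (D.card4 F (hfac F hF)) h1 hPF).symm.trans
        (hun F' (D.card4 F' (hfac F' hF')) h2 hQF))
    · obtain ⟨w, hw, hNw⟩ := D.edge F (hfac F hF) A (hAR.trans h1) hA hAe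
      exact sec_glue D h hF hF' hne hR h1 h2 (hAR hw) hNw hsec (same_eq hsec hs hw hNw)

/-- every stage carries a section -/
theorem sec_exists (D : Data K N φ e c₀ a b c) {𝓕 G : Finset (Finset V)}
    (h : LCStage 3 K 𝓕 G) : ∃ s, Sec N φ 𝓕 G s := by
  induction h with
  | start F hF =>
    obtain ⟨R, hRF, hR⟩ := exists_subset_card_eq (s := F) (n := 3) (by rw [D.card4 F hF]; omega)
    obtain ⟨w, hw, hNw⟩ := D.ridge F hF R hRF hR
    refine ⟨fun _ v => φ w v c₀, ?_, ?_⟩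
    · intro X hX u hu v hv hNu hNv
      rw [mem_singleton] at hX
      subst hX
      exact (D.coc _ hF w (hRF hw) u hu v hv hNw hNu hNv _).symm
    · intro R hR
      exact absurd hR (notMem_empty R)
  | attach 𝓕 G F F' R h hF hF' hn hR h1 h2 hG ih =>
    obtain ⟨s, hs⟩ := ih
    obtain ⟨w, hw, hNw⟩ := D.ridge F' hF' R h2 hR
    exact ⟨_, sec_attach D h hF hF' hn hR h1 h2 hw hNw hs⟩
  | glue 𝓕 G F F' R A h hF hF' hne hR h1 h2 hG hA hAR hs ih =>
    have hfac := stage_facet h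
    have hrid := stage_ridge h
    by_cases hAe : A = e
    · subst hAe
      obtain ⟨w, hw, hNw⟩ := D.ridge F (hfac F hF) R h1 hR
      obtain ⟨s, hsec, hsx⟩ := sec_free D h (hfac F hF) h1 hR hAR hG hF (h1 hw) hNw c₀
      refine ⟨s, sec_glue D h hF hF' hne hR h1 h2 hw hNw hsec ?_⟩
      -- the value `c₀` propagates along the chain
      have key : ∀ X, SameFace 𝓕 G A F X → X ∈ 𝓕 ∧ A ⊆ X ∧ ∀ y ∈ X, N y → s X y = c₀ := by
        intro X hX
        unfold SameFace at hX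
        induction hX with
        | refl =>
          refine ⟨hF, hAR.trans h1, fun y hy hNy => ?_⟩
          rw [hsec.1 F hF w (h1 hw) y hy hNw hNy, hsx]
          exact D.fix F (hfac F hF) (hAR.trans h1) w (h1 hw) y hy hNw hNy
        | tail _ h3 ih2 =>
          obtain ⟨hX, hY, R', hR', hAR', h4, h5⟩ := h3
          obtain ⟨_, _, h6⟩ := ih2
          refine ⟨hY, hAR'.trans h5, fun y hy hNy => ?_⟩
          obtain ⟨v, hv, hNv⟩ := D.ridge _ (hfac _ hY) R' h5 (hrid R' hR').1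
          rw [hsec.1 _ hY v (h5 hv) y hy hNv hNy, ← hsec.2 R' hR' _ hX _ hY h4 h5 v hv hNv,
            h6 v (h4 hv) hNv]
          exact D.fix _ (hfac _ hY) (hAR'.trans h5) v (h5 hv) y hy hNv hNy
      rw [hsx, (key F' hs).2.2 w (h2 hw) hNw]
    · obtain ⟨s, hsec⟩ := ih
      obtain ⟨w, hw, hNw⟩ := D.edge F (hfac F hF) A (hAR.trans h1) hA hAe
      exact ⟨s, sec_glue D h hF hF' hne hR h1 h2 (hAR hw) hNw hsec (same_eq hsec hs hw hNw)⟩

/-- a locally constructible complex carries a global flat section -/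
theorem global_section (D : Data K N φ e c₀ a b c) (h : IsLC 3 K)
    (hK : ∀ F, IsFacet K F → ∀ u ∈ F, {u} ∈ K) :
    ∃ g : V → Fin 3, ∀ F, IsFacet K F → ∀ u ∈ F, ∀ v ∈ F, N u → N v → g v = φ u v (g u) := by
  obtain ⟨_, _, 𝓕, G, h3, h4, h5⟩ := h
  obtain ⟨s, hs⟩ := sec_exists D h3
  have hch : ∀ u : V, ∃ x : Fin 3, ∀ F, IsFacet K F → u ∈ F → N u → s F u = x := by
    intro u
    by_cases hu : ∃ F, IsFacet K F ∧ u ∈ F
    · obtain ⟨F₀, hF₀, hu₀⟩ := hu
      refine ⟨s F₀ u, fun F hF hu hN => ?_⟩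
      exact same_eq hs (h5 {u} (hK F₀ hF₀ u hu₀) F (h4 F hF) F₀ (h4 F₀ hF₀)
        (singleton_subset_iff.2 hu) (singleton_subset_iff.2 hu₀)) (mem_singleton_self u) hN
    · exact ⟨0, fun F hF huF => absurd ⟨F, hF, huF⟩ hu⟩
  choose g hg using hch
  refine ⟨g, fun F hF u hu v hv hNu hNv => ?_⟩
  rw [← hg v F hF hv hNv, ← hg u F hF hu hNu]
  exact hs.1 F (h4 F hF) u hu v hv hNu hNv

end

end Pool.Agent.Helper55K1.NE
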