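import Mathlib
import Pool.Agent.Helper175.NS.Local
import Pool.Agent.Helper55K1.NE.Ball
import Pool.Agent.Helper55K1.NE.Flat

set_option autoImplicit false

/-!
# The 12-vertex ball is not locally constructible
-/

namespace Pool.Agent.Helper55K1.NE

open Finset Pool.Agent.H933R3 Pool.Agent.Helper175.NS

theorem mem_bitsP {m : ℕ} {u : Fin 12} : u ∈ decF 12 m ↔ (u : ℕ) ∈ bits m := by
  rw [mem_decF, mem_bits, mem_dec]
  constructor
  · intro h
    exact ⟨by omega, h⟩
  · exact fun h => h.2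

theorem cardP : ∀ m ∈ Pm, (decF 12 m).card = 4 := by decide +kernel

theorem facet_iff {F : Finset (Fin 12)} :
    IsFacet (cx 12 Pm) F ↔ ∃ m ∈ Pm, decF 12 m = F := by
  constructor
  · rintro ⟨h1, h2⟩
    obtain ⟨m, hm, h3⟩ := mem_cx.1 h1
    exact ⟨m, hm, h2 _ (mem_cx.2 ⟨m, hm, Subset.refl _⟩) h3⟩
  · rintro ⟨m, hm, rfl⟩
    refine ⟨mem_cx.2 ⟨m, hm, Subset.refl _⟩, fun G hG h => ?_⟩
    obtain ⟨m', hm', h3⟩ := mem_cx.1 hG
    have h4 : decF 12 m = decF 12 m' :=
      eq_of_subset_of_card_le (h.trans h3) (by rw [cardP m hm, cardP m' hm'])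
    exact Subset.antisymm (h4 ▸ h3) h

/-- the first local condition -/
def GoodP1 (s : List ℕ) : Prop := ∀ u ∈ s, ¬ KK u → ∀ c, psi u u c = c

/-- the second local condition -/
def GoodP2 (s : List ℕ) : Prop :=
  ∀ u ∈ s, ¬ KK u → ∀ v ∈ s, ¬ KK v → ∀ w ∈ s, ¬ KK w → ∀ c, psi v w (psi u v c) = psi u w c

/-- the third local condition -/
def GoodP3 (s : List ℕ) : Prop :=
  ¬ (10 ∈ s ∧ 11 ∈ s) ∨ ∀ u ∈ s, ¬ KK u → ∀ v ∈ s, ¬ KK v → psi u v 1 = 1

/-- the fourth local condition -/
def GoodP4 (s : List ℕ) : Prop :=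
  ¬ (10 ∈ s ∧ 11 ∈ s) ∨ ∀ x ∈ s, x = 10 ∨ x = 11 ∨ x = 4 ∨ x = 6 ∨ x = 9

instance (s : List ℕ) : Decidable (GoodP1 s) := by unfold GoodP1; infer_instance
instance (s : List ℕ) : Decidable (GoodP2 s) := by unfold GoodP2; infer_instance
instance (s : List ℕ) : Decidable (GoodP3 s) := by unfold GoodP3; infer_instance
instance (s : List ℕ) : Decidable (GoodP4 s) := by unfold GoodP4; infer_instance

theorem goodP_all : ∀ m ∈ Pm, GoodP1 (bits m) ∧ GoodP2 (bits m) ∧ GoodP3 (bits m) ∧
    GoodP4 (bits m) := by decide +kernel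

/-- vertices away from the special edge -/
def NN (u : Fin 12) : Prop := ¬ KK (u : ℕ)

theorem not_NN {u : Fin 12} (h : ¬ NN u) : u ∈ ({10, 11} : Finset (Fin 12)) := by
  unfold NN KK at h
  rw [not_not] at h
  rw [mem_insert, mem_singleton]
  have := u.2
  rcases h with h | h | h
  · exact Or.inl (Fin.ext h)
  · exact Or.inr (Fin.ext h)
  · omega

theorem ex_N {R : Finset (Fin 12)} (h : ¬ R ⊆ {10, 11}) : ∃ w ∈ R, NN w := by
  by_contra hcon
  push Not at hcon
  exact h fun w hw => not_NN (hcon w hw)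

theorem data_P (h : AtMostTwo 3 (cx 12 Pm)) :
    Data (cx 12 Pm) NN (fun u v => psi u v) {10, 11} 1 {4, 10, 11} {6, 10, 11} {9, 10, 11} where
  two := h
  refl := by
    intro F hF u hu hN x
    obtain ⟨m, hm, rfl⟩ := facet_iff.1 hF
    exact (goodP_all m hm).1 u (mem_bitsP.1 hu) hN x
  coc := by
    intro F hF u hu v hv w hw hNu hNv hNw x
    obtain ⟨m, hm, rfl⟩ := facet_iff.1 hF
    exact (goodP_all m hm).2.1 u (mem_bitsP.1 hu) hNu v (mem_bitsP.1 hv) hNv w (mem_bitsP.1 hw)
      hNw x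
  ridge := by
    intro F _ R _ hR
    apply ex_N
    intro h1
    have h2 := card_le_card h1
    have h3 : ({10, 11} : Finset (Fin 12)).card = 2 := by decide
    omega
  edge := by
    intro F _ A _ hA hne
    apply ex_N
    intro h1
    have h3 : ({10, 11} : Finset (Fin 12)).card = 2 := by decide
    exact hne (eq_of_subset_of_card_le h1 (by omega))
  fix := by
    intro F hF he u hu v hv hNu hNv
    obtain ⟨m, hm, rfl⟩ := facet_iff.1 hF
    have h10 : (10 : Fin 12) ∈ decF 12 m := he (by decide)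
    have h11 : (11 : Fin 12) ∈ decF 12 m := he (by decide)
    rcases (goodP_all m hm).2.2.1 with h1 | h1
    · exact absurd ⟨mem_bitsP.1 h10, mem_bitsP.1 h11⟩ h1
    · exact h1 u (mem_bitsP.1 hu) hNu v (mem_bitsP.1 hv) hNv
  three := by
    intro F hF R hRF hR he
    obtain ⟨m, hm, rfl⟩ := facet_iff.1 hF
    have h10 : (10 : Fin 12) ∈ R := he (by decide)
    have h11 : (11 : Fin 12) ∈ R := he (by decide)
    have key : ∀ x ∈ bits m, x = 10 ∨ x = 11 ∨ x = 4 ∨ x = 6 ∨ x = 9 := by
      rcases (goodP_all m hm).2.2.2 with h1 | h1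
      · exact absurd ⟨mem_bitsP.1 (hRF h10), mem_bitsP.1 (hRF h11)⟩ h1
      · exact h1
    have h1 : (R \ {10, 11}).card = 1 := by
      rw [card_sdiff_of_subset he, hR]
      decide
    obtain ⟨x, hx⟩ := card_eq_one.1 h1
    have hxR : x ∈ R \ {10, 11} := by rw [hx]; exact mem_singleton_self x
    have hR' : R = {x, 10, 11} := by
      have h2 : R \ {10, 11} ∪ {10, 11} = R := sdiff_union_of_subset he
      rw [← h2, hx]
      rfl
    rw [mem_sdiff] at hxR
    have h3 := key x (mem_bitsP.1 (hRF hxR.1))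
    rcases h3 with h3 | h3 | h3 | h3 | h3
    · exact absurd (by rw [show x = 10 from Fin.ext h3]; decide) hxR.2
    · exact absurd (by rw [show x = 11 from Fin.ext h3]; decide) hxR.2
    · left; rw [hR', show x = 4 from Fin.ext h3]
    · right; left; rw [hR', show x = 6 from Fin.ext h3]
    · right; right; rw [hR', show x = 9 from Fin.ext h3]
  card4 := by
    intro F hF
    obtain ⟨m, hm, rfl⟩ := facet_iff.1 hF
    exact cardP m hm

/-- the 12-vertex ball is not locally constructible -/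
theorem not_isLC_P : ¬ IsLC 3 (cx 12 Pm) := by
  intro h
  obtain ⟨g, hg⟩ := global_section (data_P h.2.1) h (by
    intro F hF u hu
    obtain ⟨m, hm, rfl⟩ := facet_iff.1 hF
    exact mem_cx.2 ⟨m, hm, singleton_subset_iff.2 hu⟩)
  have key : ∀ m ∈ Pm, ∀ u ∈ decF 12 m, ∀ v ∈ decF 12 m, NN u → NN v → g v = psi u v (g u) :=
    fun m hm => hg (decF 12 m) (facet_iff.2 ⟨m, hm, rfl⟩)
  have hNN : ∀ u : Fin 12, (u : ℕ) < 10 → NN u := by
    intro u hu
    unfold NN KK
    omega
  have h1 := key 23 (by decide) 0 (by decide) 1 (by decide) (hNN _ (by decide)) (hNN _ (by decide))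
  have h2 := key 23 (by decide) 0 (by decide) 2 (by decide) (hNN _ (by decide)) (hNN _ (by decide))
  have h3 := key 1068 (by decide) 2 (by decide) 5 (by decide) (hNN _ (by decide))
    (hNN _ (by decide))
  have h5 := key 2242 (by decide) 1 (by decide) 7 (by decide) (hNN _ (by decide))
    (hNN _ (by decide))
  have h6 := key 1073 (by decide) 0 (by decide) 5 (by decide) (hNN _ (by decide))
    (hNN _ (by decide))
  have h7 := key 1185 (by decide) 5 (by decide) 7 (by decide) (hNN _ (by decide))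
    (hNN _ (by decide))
  generalize g 0 = a0 at *
  generalize g 1 = a1 at *
  generalize g 2 = a2 at *
  generalize g 5 = a5 at *
  generalize g 7 = a7 at *
  revert a0 a1 a2 a5 a7
  decide

end Pool.Agent.Helper55K1.NE
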