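import Mathlib
import Pool.Agent.Helper55K1.NE.ConeLC
import Pool.Agent.Helper55K1.NE.NotLC

set_option autoImplicit false

/-!
# The complexes are pure pseudomanifolds
-/

namespace Pool.Agent.Helper55K1.NE

open Finset Pool.Agent.H933R3 Pool.Agent.Helper175.NS

variable {n : ℕ} {K : Finset (Finset (Fin n))}

/-- pure of dimension `d`, with every ridge in at most two facets -/
def Pseudo (d : ℕ) {V : Type} [DecidableEq V] (K : Finset (Finset V)) : Prop :=
  (∀ F, IsFacet K F → F.card = d + 1) ∧ AtMostTwo d K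

theorem pseudo_cone {d : ℕ} (h : Pseudo d K) : Pseudo (d + 1) (cone K) := by
  have hc : ∀ F, IsFacet (cone K) F → F.card = d + 1 + 1 := by
    intro F hF
    have h1 := card_dn (zero_mem_facet hF)
    have h2 := h.1 _ (facet_dn hF)
    omega
  refine ⟨hc, ?_⟩
  intro R hR X Y Z hX hY hZ hRX hRY hRZ
  by_cases h0 : (0 : Fin (n + 1)) ∈ R
  · have h1 := h.2 (dn R) (by have := card_dn h0; omega) (dn X) (dn Y) (dn Z) (facet_dn hX)
      (facet_dn hY) (facet_dn hZ) (dn_mono hRX) (dn_mono hRY) (dn_mono hRZ)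
    rcases h1 with h1 | h1 | h1
    · exact Or.inl (dn_inj (zero_mem_facet hX) (zero_mem_facet hY) h1)
    · exact Or.inr (Or.inl (dn_inj (zero_mem_facet hX) (zero_mem_facet hZ) h1))
    · exact Or.inr (Or.inr (dn_inj (zero_mem_facet hY) (zero_mem_facet hZ) h1))
  · left
    by_contra hne
    exact h0 (zero_mem_ridge hc hX hY hne hR hRX hRY)

theorem triples_P : ∀ p ∈ Pm, ∀ q ∈ Pm, p = q ∨ (bits (p &&& q)).length < 3 ∨
    ∀ r ∈ Pm, p = r ∨ q = r ∨ (bits (p &&& q &&& r)).length < 3 := by
  decide +kernel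

theorem pseudo_P : Pseudo 3 (cx 12 Pm) := by
  constructor
  · intro F hF
    obtain ⟨m, hm, rfl⟩ := facet_iff.1 hF
    exact cardP m hm
  · intro R hR X Y Z hX hY hZ hRX hRY hRZ
    obtain ⟨p, hp, rfl⟩ := facet_iff.1 hX
    obtain ⟨q, hq, rfl⟩ := facet_iff.1 hY
    obtain ⟨r, hr, rfl⟩ := facet_iff.1 hZ
    have key : ∀ m : ℕ, (∀ i ∈ R, m.testBit (i : ℕ) = true) → 3 ≤ (bits m).length := by
      intro m hm
      have h1 : R.image Fin.val ⊆ (bits m).toFinset := by
        intro k hk
        obtain ⟨i, hi, rfl⟩ := mem_image.1 hk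
        rw [List.mem_toFinset, mem_bits, mem_dec]
        exact ⟨by omega, hm i hi⟩
      have h2 := card_le_card h1
      rw [card_image_of_injective _ Fin.val_injective, hR] at h2
      have h3 := List.toFinset_card_le (bits m)
      omega
    rcases triples_P p hp q hq with h | h | h
    · exact Or.inl (by rw [h])
    · exfalso
      have h1 := key (p &&& q) (by
        intro i hi
        rw [Nat.testBit_land, mem_decF.1 (hRX hi), mem_decF.1 (hRY hi)]
        rfl)
      omega
    · rcases h r hr with h | h | h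
      · exact Or.inr (Or.inl (by rw [h]))
      · exact Or.inr (Or.inr (by rw [h]))
      · exfalso
        have h1 := key (p &&& q &&& r) (by
          intro i hi
          rw [Nat.testBit_land, Nat.testBit_land, mem_decF.1 (hRX hi), mem_decF.1 (hRY hi),
            mem_decF.1 (hRZ hi)]
          rfl)
        omega

end Pool.Agent.Helper55K1.NE
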